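import Mathlib

/-!
# MP_82b5c7_al, Q1: absolute center of exponent greater than 2 and semi-rationality

There is a finite semi-rational group whose absolute center contains an element of order 3.
-/

namespace Pool.Agent.Results.MP_82b5c7_al.AbsoluteCenter

open scoped Classical

/-- `N_{w,G}(g)`: the number of solutions in `G^r` of `w(g_1, …, g_r) = g`. -/
noncomputable def wordCount (G : Type) [Group G] {r : ℕ} (w : FreeGroup (Fin r)) (g : G) : ℕ :=
  Nat.card {x : Fin r → G // FreeGroup.lift x w = g}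

/-- `a_χ = ⟨N_{w,G}, χ⟩` for the character `χ` of `ρ`. -/
noncomputable def coefficient (G : Type) [Group G] [Fintype G] {r : ℕ} (w : FreeGroup (Fin r))
    {E : Type} [AddCommGroup E] [Module ℂ E] (ρ : Representation ℂ G E) : ℂ :=
  (Nat.card G : ℂ)⁻¹ * ∑ g : G, (wordCount G w g : ℂ) * ρ.character g⁻¹

/-- `G` is semi-rational: for all `r ≥ 1` and all words `w` in `r` variables, every coefficient
`⟨N_{w,G}, χ⟩`, `χ ∈ Irr(G)`, is an integer. -/
def SemiRational (G : Type) [Group G] [Fintype G] : Prop :=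
  ∀ (r : ℕ), 1 ≤ r → ∀ (w : FreeGroup (Fin r)) (E : Type) [AddCommGroup E] [Module ℂ E]
    [FiniteDimensional ℂ E] (ρ : Representation ℂ G E), ρ.IsIrreducible →
    ∃ a : ℤ, coefficient G w ρ = a

/-! ### Groups of class 2 and exponent 3 -/

section General

variable {V W : Type} [AddCommGroup V] [Module (ZMod 3) V] [AddCommGroup W] [Module (ZMod 3) W]

/-- the group `V × W` with the product `(v, w) (v', w') = (v + v', w + w' + β(v, v'))` -/
@[ext]
structure HG (β : V →ₗ[ZMod 3] V →ₗ[ZMod 3] W) where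
  v : V
  w : W

variable (β : V →ₗ[ZMod 3] V →ₗ[ZMod 3] W)

instance : Mul (HG β) := ⟨fun x y => ⟨x.v + y.v, x.w + y.w + β x.v y.v⟩⟩
instance : One (HG β) := ⟨⟨0, 0⟩⟩
instance : Inv (HG β) := ⟨fun x => ⟨-x.v, -x.w + β x.v x.v⟩⟩

@[simp] theorem mul_v (x y : HG β) : (x * y).v = x.v + y.v := rfl
@[simp] theorem mul_w (x y : HG β) : (x * y).w = x.w + y.w + β x.v y.v := rfl
@[simp] theorem one_v : (1 : HG β).v = 0 := rfl
@[simp] theorem one_w : (1 : HG β).w = 0 := rfl
@[simp] theorem inv_v (x : HG β) : (x⁻¹).v = -x.v := rfl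
@[simp] theorem inv_w (x : HG β) : (x⁻¹).w = -x.w + β x.v x.v := rfl

instance : Group (HG β) :=
  Group.ofLeftAxioms
    (by
      intro x y z
      ext
      · simp [add_assoc]
      · simp only [mul_w, mul_v, map_add, LinearMap.add_apply]
        abel)
    (by intro x; ext <;> simp)
    (by
      intro x
      ext
      · simp
      · simp)

/-- underlying set -/
def equivProd : HG β ≃ V × W where
  toFun x := (x.v, x.w)
  invFun p := ⟨p.1, p.2⟩
  left_inv _ := rfl
  right_inv _ := rfl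

/-- the quadratic map with coefficients `c` -/
def Q {ι : Type} [Fintype ι] (c : ι → ι → ZMod 3) (x : ι → V) : W :=
  ∑ i, ∑ j, c i j • β (x i) (x j)

theorem word_eval {ι : Type} [Fintype ι] (w : FreeGroup ι) :
    ∃ (a : ι → ZMod 3) (c : ι → ι → ZMod 3), ∀ x : ι → HG β,
      (FreeGroup.lift x w).v = ∑ i, a i • (x i).v ∧
      (FreeGroup.lift x w).w = ∑ i, a i • (x i).w + Q β c (fun i => (x i).v) := by
  induction w using FreeGroup.induction_on with
  | C1 =>
    refine ⟨0, 0, fun x => ?_⟩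
    simp [Q]
  | of i =>
    refine ⟨Pi.single i 1, 0, fun x => ?_⟩
    simp [Q, Pi.single_apply]
  | inv_of i =>
    refine ⟨Pi.single i (-1), Pi.single i (Pi.single i 1), fun x => ?_⟩
    constructor
    · simp [Pi.single_apply]
    · rw [map_inv, FreeGroup.lift_apply_of, inv_w]
      have h1 : ∑ j, (Pi.single i (-1) : ι → ZMod 3) j • (x j).w = -(x i).w := by
        simp [Pi.single_apply]
      have h2 : Q β (Pi.single i (Pi.single i 1)) (fun i => (x i).v) = β (x i).v (x i).v := by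
        unfold Q
        rw [Finset.sum_eq_single i]
        · rw [Finset.sum_eq_single i]
          · simp
          · intro j _ hj
            simp [hj]
          · simp
        · intro j _ hj
          simp [hj]
        · simp
      rw [h1, h2]
  | mul u u' h h' =>
    obtain ⟨a, c, h⟩ := h
    obtain ⟨a', c', h'⟩ := h'
    refine ⟨a + a', fun i j => c i j + c' i j + a i * a' j, fun x => ?_⟩
    rw [map_mul]
    constructor
    · rw [mul_v, (h x).1, (h' x).1, ← Finset.sum_add_distrib]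
      refine Finset.sum_congr rfl fun i _ => ?_
      rw [Pi.add_apply, add_smul]
    · rw [mul_w, (h x).1, (h' x).1, (h x).2, (h' x).2]
      have e1 : β (∑ i, a i • (x i).v) (∑ i, a' i • (x i).v)
          = ∑ i, ∑ j, (a i * a' j) • β (x i).v (x j).v := by
        simp only [map_sum, LinearMap.sum_apply, map_smul, LinearMap.smul_apply]
        rw [Finset.sum_comm]
        refine Finset.sum_congr rfl fun i _ => ?_
        rw [Finset.smul_sum]
        refine Finset.sum_congr rfl fun j _ => ?_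
        rw [smul_smul, mul_comm]
      rw [e1]
      unfold Q
      simp only [Pi.add_apply, add_smul, Finset.sum_add_distrib]
      abel

/-- the sum over all `x ∈ G^r` of a function of `w(x)` -/
theorem sum_word (G : Type) [Group G] [Fintype G] {r : ℕ} (w : FreeGroup (Fin r)) (F : G → ℂ) :
    ∑ g : G, (wordCount G w g : ℂ) * F g = ∑ x : Fin r → G, F (FreeGroup.lift x w) := by
  rw [← Finset.sum_fiberwise (s := Finset.univ) (g := fun x : Fin r → G => FreeGroup.lift x w)
    (f := fun x => F (FreeGroup.lift x w))]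
  refine Finset.sum_congr rfl fun g _ => ?_
  have h1 : ∑ x ∈ Finset.univ with (FreeGroup.lift x) w = g, F ((FreeGroup.lift x) w)
      = ∑ x ∈ (Finset.univ : Finset (Fin r → G)) with (FreeGroup.lift x) w = g, F g := by
    refine Finset.sum_congr rfl fun x hx => ?_
    rw [Finset.mem_filter] at hx
    rw [hx.2]
  rw [h1, Finset.sum_const, nsmul_eq_mul, wordCount, Nat.card_eq_fintype_card,
    Fintype.card_subtype]

variable [Fintype V] [Fintype W]

noncomputable instance : Fintype (HG β) := Fintype.ofEquiv _ (equivProd β).symm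

theorem card_HG : Nat.card (HG β) = Fintype.card V * Fintype.card W := by
  rw [Nat.card_congr (equivProd β), Nat.card_eq_fintype_card, Fintype.card_prod]

/-- Case A: some exponent is nonzero; the word map is uniform. -/
theorem sum_uniform {r : ℕ} (w : FreeGroup (Fin r)) (a : Fin r → ZMod 3)
    (c : Fin r → Fin r → ZMod 3) (h : ∀ x : Fin r → HG β,
      (FreeGroup.lift x w).v = ∑ i, a i • (x i).v ∧
      (FreeGroup.lift x w).w = ∑ i, a i • (x i).w + Q β c (fun i => (x i).v))
    (k : Fin r) (hk : a k ≠ 0) (F : HG β → ℂ) :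
    ∃ N : ℕ, ∑ x : Fin r → HG β, F (FreeGroup.lift x w) = N * ∑ g : HG β, F g := by
  have hinj : Function.Injective
      (fun x : Fin r → HG β => Function.update x k (FreeGroup.lift x w)) := by
    intro x y hxy
    have h1 : ∀ j, j ≠ k → x j = y j := by
      intro j hj
      have := congrFun hxy j
      simpa [hj] using this
    have h2 : FreeGroup.lift x w = FreeGroup.lift y w := by
      have := congrFun hxy k
      simpa using this
    have h3 : (x k).v = (y k).v := by
      have e1 := (h x).1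
      rw [h2, (h y).1, ← Finset.add_sum_erase _ _ (Finset.mem_univ k),
        ← Finset.add_sum_erase Finset.univ (fun i => a i • (x i).v) (Finset.mem_univ k)] at e1
      have e2 : ∑ i ∈ Finset.univ.erase k, a i • (y i).v
          = ∑ i ∈ Finset.univ.erase k, a i • (x i).v :=
        Finset.sum_congr rfl fun i hi => by rw [h1 i (Finset.ne_of_mem_erase hi)]
      rw [e2] at e1
      exact (smul_right_injective V hk (add_right_cancel e1)).symm
    have h4 : (fun i => (x i).v) = (fun i => (y i).v) := by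
      funext i
      by_cases hi : i = k
      · rw [hi, h3]
      · rw [h1 i hi]
    have h5 : (x k).w = (y k).w := by
      have e1 := (h x).2
      rw [h2, (h y).2, h4, ← Finset.add_sum_erase _ _ (Finset.mem_univ k),
        ← Finset.add_sum_erase Finset.univ (fun i => a i • (x i).w) (Finset.mem_univ k)] at e1
      have e2 : ∑ i ∈ Finset.univ.erase k, a i • (y i).w
          = ∑ i ∈ Finset.univ.erase k, a i • (x i).w :=
        Finset.sum_congr rfl fun i hi => by rw [h1 i (Finset.ne_of_mem_erase hi)]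
      rw [e2] at e1
      exact (smul_right_injective W hk (add_right_cancel (add_right_cancel e1))).symm
    funext i
    by_cases hi : i = k
    · rw [hi]; exact HG.ext h3 h5
    · exact h1 i hi
  have hbij := Finite.injective_iff_bijective.1 hinj
  have e1 : ∑ x : Fin r → HG β, F (FreeGroup.lift x w) = ∑ y : Fin r → HG β, F (y k) := by
    rw [← hbij.sum_comp (fun y => F (y k))]
    refine Finset.sum_congr rfl fun x _ => ?_
    simp
  refine ⟨Fintype.card ({j // j ≠ k} → HG β), ?_⟩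
  rw [e1, ← (Equiv.funSplitAt k (HG β)).symm.sum_comp, Fintype.sum_prod_type]
  simp only [Equiv.funSplitAt_symm_apply, dite_true]
  simp [mul_comm]
  rw [Finset.sum_mul]

/-! ### Case B: the sum of a central character over the values of a commutator word -/

omit [Fintype V] [Fintype W] in
theorem beta_swap (hβ : ∀ v, β v v = 0) (u v : V) : β u v = - β v u := by
  have h := hβ (u + v)
  simp only [map_add, LinearMap.add_apply, hβ, zero_add, add_zero] at h
  first
    | exact eq_neg_of_add_eq_zero_left h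
    | exact eq_neg_of_add_eq_zero_right h

omit [Fintype V] [Fintype W] in
theorem Q_cons {n : ℕ} (hβ : ∀ v, β v v = 0) (c : Fin (n + 1) → Fin (n + 1) → ZMod 3) (u : V)
    (x : Fin n → V) : Q β c (Fin.cons u x : Fin (n + 1) → V)
      = β u (∑ j, (c 0 j.succ - c j.succ 0) • x j) + Q β (fun i j => c i.succ j.succ) x := by
  unfold Q
  rw [Fin.sum_univ_succ]
  simp only [Fin.sum_univ_succ, Fin.cons_zero, Fin.cons_succ, hβ, smul_zero, zero_add,
    Finset.sum_add_distrib]
  rw [← add_assoc]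
  congr 1
  rw [map_sum, ← Finset.sum_add_distrib]
  refine Finset.sum_congr rfl fun j _ => ?_
  rw [map_smul, sub_smul, beta_swap β hβ (x j) u, smul_neg, sub_eq_add_neg]

omit [Fintype V] [Fintype W] in
theorem Q_symm {n : ℕ} (hβ : ∀ v, β v v = 0) (c : Fin n → Fin n → ZMod 3)
    (hc : ∀ i j, c i j = c j i) (x : Fin n → V) : Q β c x = 0 := by
  have h : Q β c x = - Q β c x := by
    unfold Q
    conv_lhs => rw [Finset.sum_comm]
    rw [← Finset.sum_neg_distrib]
    refine Finset.sum_congr rfl fun i _ => ?_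
    rw [← Finset.sum_neg_distrib]
    refine Finset.sum_congr rfl fun j _ => ?_
    rw [beta_swap β hβ (x j) (x i), hc j i, smul_neg]
  have h2 : (2 : ZMod 3) • Q β c x = 0 := by
    rw [two_smul]
    nth_rewrite 1 [h]
    exact neg_add_cancel _
  exact (smul_eq_zero.1 h2).resolve_left (by decide)

omit [Fintype V] [Fintype W] in
theorem Q_perm {n : ℕ} (c : Fin n → Fin n → ZMod 3) (σ : Equiv.Perm (Fin n)) (x : Fin n → V) :
    Q β c x = Q β (fun i j => c (σ i) (σ j)) (x ∘ σ) := by
  unfold Q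
  rw [← Equiv.sum_comp σ]
  refine Finset.sum_congr rfl fun i _ => ?_
  rw [← Equiv.sum_comp σ]
  rfl

omit [Fintype V] [Fintype W] in
theorem Q_add_smul {n : ℕ} (c : Fin n → Fin n → ZMod 3) (a : ZMod 3) (m l : Fin n → ZMod 3)
    (x : Fin n → V) : Q β c x + a • β (∑ k, m k • x k) (∑ k, l k • x k)
      = Q β (fun i j => c i j + a * (m i * l j)) x := by
  have e1 : β (∑ k, m k • x k) (∑ k, l k • x k) = ∑ i, ∑ j, (m i * l j) • β (x i) (x j) := by
    simp only [map_sum, LinearMap.sum_apply, map_smul, LinearMap.smul_apply]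
    rw [Finset.sum_comm]
    refine Finset.sum_congr rfl fun i _ => ?_
    rw [Finset.smul_sum]
    refine Finset.sum_congr rfl fun j _ => ?_
    rw [smul_smul, mul_comm]
  rw [e1, Finset.smul_sum]
  unfold Q
  rw [← Finset.sum_add_distrib]
  refine Finset.sum_congr rfl fun i _ => ?_
  rw [Finset.smul_sum, ← Finset.sum_add_distrib]
  refine Finset.sum_congr rfl fun j _ => ?_
  rw [add_smul, smul_smul]

omit [Fintype W] in
/-- the sum over one hyperbolic pair -/
theorem sum_pair (hβ : ∀ v, β v v = 0) (ψ : AddChar W ℂ) (a : ZMod 3) (ha : a ≠ 0) (L M : V)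
    (q : W) :
    ∑ X : V, ∑ Y : V, ψ (a • β X Y + β X L + β Y M + q)
      = (∑ X : V, ∑ Y : V, ψ (a • β X Y)) * ψ (q + a⁻¹ • β M L) := by
  rw [← Equiv.sum_comp (Equiv.addRight (a⁻¹ • M)), Finset.sum_mul]
  refine Finset.sum_congr rfl fun X _ => ?_
  rw [← Equiv.sum_comp (Equiv.addRight (-(a⁻¹ • L))), Finset.sum_mul]
  refine Finset.sum_congr rfl fun Y _ => ?_
  rw [← AddChar.map_add_eq_mul]
  congr 1
  simp only [Equiv.coe_addRight, map_add, map_neg, map_smul, LinearMap.add_apply,
    LinearMap.neg_apply, LinearMap.smul_apply, smul_add, smul_neg, smul_smul]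
  rw [mul_inv_cancel₀ ha, beta_swap β hβ L M, beta_swap β hβ M Y]
  simp only [one_smul, smul_neg]
  rw [← mul_assoc, mul_inv_cancel₀ ha, one_mul]
  abel

omit [Fintype W] in
theorem sum_pair_int (ψ : AddChar W ℂ) (a : ZMod 3) :
    ∃ N : ℤ, ∑ X : V, ∑ Y : V, ψ (a • β X Y) = (Fintype.card V : ℂ) * N := by
  have h : ∀ X : V, ∃ N : ℤ, ∑ Y : V, ψ (a • β X Y) = (Fintype.card V : ℂ) * N := by
    intro X
    have e1 := AddChar.sum_eq_ite (ψ.compAddMonoidHom ((a • β X : V →ₗ[ZMod 3] W).toAddMonoidHom))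
    have e2 : ∑ Y : V, ψ (a • β X Y)
        = ∑ Y, (ψ.compAddMonoidHom ((a • β X : V →ₗ[ZMod 3] W).toAddMonoidHom)) Y := rfl
    rw [e2, e1]
    split_ifs
    · exact ⟨1, by simp⟩
    · exact ⟨0, by simp⟩
  choose N hN using h
  refine ⟨∑ X, N X, ?_⟩
  rw [Int.cast_sum, Finset.mul_sum]
  exact Finset.sum_congr rfl fun X _ => hN X

theorem exists_perm {m : ℕ} (i j : Fin (m + 2)) (hij : i ≠ j) :
    ∃ σ : Equiv.Perm (Fin (m + 2)), σ 0 = i ∧ σ 1 = j := by
  have h01 : (0 : Fin (m + 2)) ≠ 1 := by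
    intro h
    have := congrArg Fin.val h
    simp at this
  refine ⟨Equiv.swap 0 i * Equiv.swap 1 (Equiv.swap 0 i j), ?_, ?_⟩
  · rw [Equiv.Perm.mul_apply, Equiv.swap_apply_of_ne_of_ne h01, Equiv.swap_apply_left]
    intro h
    have h2 := congrArg (Equiv.swap 0 i) h
    rw [Equiv.swap_apply_left, Equiv.swap_apply_self] at h2
    exact hij h2
  · rw [Equiv.Perm.mul_apply, Equiv.swap_apply_left, Equiv.swap_apply_self]

omit [Fintype W] in
/-- the sums `∑_x ψ(Q(x))` are integers, divisible by `|V|` if there is at least one variable -/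
theorem sum_Q (hβ : ∀ v, β v v = 0) (ψ : AddChar W ℂ) (n : ℕ) (c : Fin n → Fin n → ZMod 3) :
    ∃ N : ℤ, ∑ x : Fin n → V, ψ (Q β c x) = N ∧
      (1 ≤ n → ∃ N' : ℤ, (N : ℂ) = (Fintype.card V : ℂ) * N') := by
  induction n using Nat.strong_induction_on with
  | _ n ih =>
  by_cases hc : ∀ i j, c i j = c j i
  · refine ⟨(Fintype.card V : ℤ) ^ n, ?_, fun hn => ⟨(Fintype.card V : ℤ) ^ (n - 1), ?_⟩⟩
    · simp only [Q_symm β hβ c hc, AddChar.map_zero_eq_one]
      simp
    · obtain ⟨m, rfl⟩ : ∃ m, n = m + 1 := ⟨n - 1, by omega⟩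
      push_cast
      rw [pow_succ, mul_comm]
  · push Not at hc
    obtain ⟨i, j, hij⟩ := hc
    have hne : i ≠ j := by rintro rfl; exact hij rfl
    obtain ⟨m, rfl⟩ : ∃ m, n = m + 2 := by
      refine ⟨n - 2, ?_⟩
      have h1 := i.isLt
      have h2 := j.isLt
      have h3 : (i : ℕ) ≠ j := fun h => hne (Fin.ext h)
      omega
    obtain ⟨σ, hσ0, hσ1⟩ := exists_perm i j hne
    set c' : Fin (m + 2) → Fin (m + 2) → ZMod 3 := fun i j => c (σ i) (σ j) with hc'
    have hS : ∑ x : Fin (m + 2) → V, ψ (Q β c x) = ∑ x : Fin (m + 2) → V, ψ (Q β c' x) := by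
      have hbij : Function.Bijective (fun x : Fin (m + 2) → V => x ∘ σ) :=
        (Equiv.arrowCongr σ.symm (Equiv.refl V)).bijective
      rw [← hbij.sum_comp (fun x => ψ (Q β c' x))]
      exact Finset.sum_congr rfl fun x _ => by rw [Q_perm β c σ x]
    rw [hS]
    have ha : c' 0 1 - c' 1 0 ≠ 0 := by
      rw [hc']
      simp only [hσ0, hσ1]
      exact sub_ne_zero.2 hij
    set a := c' 0 1 - c' 1 0 with haa
    -- expand the first two variables
    let l : Fin m → ZMod 3 := fun k => c' 0 k.succ.succ - c' k.succ.succ 0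
    let mm : Fin m → ZMod 3 := fun k => c' 1 k.succ.succ - c' k.succ.succ 1
    let c2 : Fin m → Fin m → ZMod 3 := fun i j => c' i.succ.succ j.succ.succ
    have hQ : ∀ (X Y : V) (x : Fin m → V),
        Q β c' (Fin.cons X (Fin.cons Y x : Fin (m + 1) → V) : Fin (m + 2) → V)
          = a • β X Y + β X (∑ k, l k • x k) + β Y (∑ k, mm k • x k) + Q β c2 x := by
      intro X Y x
      rw [Q_cons β hβ, Q_cons β hβ, Fin.sum_univ_succ, map_add, Fin.cons_zero, map_smul]
      simp only [Fin.cons_succ]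
      exact (add_assoc _ _ _).symm
    have hexp : ∑ x : Fin (m + 2) → V, ψ (Q β c' x)
        = ∑ x : Fin m → V, ∑ X : V, ∑ Y : V,
          ψ (a • β X Y + β X (∑ k, l k • x k) + β Y (∑ k, mm k • x k) + Q β c2 x) := by
      rw [← (Fin.consEquiv (fun _ => V)).sum_comp, Fintype.sum_prod_type]
      have h1 : ∀ X : V, ∑ y : Fin (m + 1) → V, ψ (Q β c' (Fin.consEquiv (fun _ => V) (X, y)))
          = ∑ Y : V, ∑ x : Fin m → V,
            ψ (a • β X Y + β X (∑ k, l k • x k) + β Y (∑ k, mm k • x k) + Q β c2 x) := by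
        intro X
        rw [← (Fin.consEquiv (fun _ => V)).sum_comp, Fintype.sum_prod_type]
        refine Finset.sum_congr rfl fun Y _ => Finset.sum_congr rfl fun x _ => ?_
        rw [← hQ]
        rfl
      rw [Finset.sum_congr rfl fun X _ => h1 X]
      have h2 : ∀ X : V, ∑ Y : V, ∑ x : Fin m → V,
            ψ (a • β X Y + β X (∑ k, l k • x k) + β Y (∑ k, mm k • x k) + Q β c2 x)
          = ∑ x : Fin m → V, ∑ Y : V,
            ψ (a • β X Y + β X (∑ k, l k • x k) + β Y (∑ k, mm k • x k) + Q β c2 x) :=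
        fun X => Finset.sum_comm
      rw [Finset.sum_congr rfl fun X _ => h2 X, Finset.sum_comm]
    rw [hexp]
    obtain ⟨N0, hN0⟩ := sum_pair_int β ψ a
    obtain ⟨N, hN, _⟩ := ih m (by omega) (fun i j => c2 i j + a⁻¹ * (mm i * l j))
    have hfin : ∑ x : Fin m → V, ∑ X : V, ∑ Y : V,
          ψ (a • β X Y + β X (∑ k, l k • x k) + β Y (∑ k, mm k • x k) + Q β c2 x)
        = (Fintype.card V : ℂ) * N0 * N := by
      rw [← hN0, ← hN, Finset.mul_sum]
      refine Finset.sum_congr rfl fun x _ => ?_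
      rw [sum_pair β hβ ψ a ha, Q_add_smul]
    rw [hfin]
    refine ⟨(Fintype.card V : ℤ) * N0 * N, by push_cast; ring, fun _ => ⟨N0 * N, by
      push_cast; ring⟩⟩

/-! ### Semi-rationality -/

omit [Fintype V] [Fintype W] in
theorem central (u : W) : (⟨0, u⟩ : HG β) ∈ Submonoid.center (HG β) := by
  rw [Submonoid.mem_center_iff]
  intro g
  ext
  · simp
  · simp [add_comm]

omit [Fintype V] [Fintype W] in
theorem nontrivial_of_irreducible {E : Type} [AddCommGroup E] [Module ℂ E]
    (ρ : Representation ℂ (HG β) E) (hρ : ρ.IsIrreducible) : Nontrivial E := by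
  by_contra h
  rw [not_nontrivial_iff_subsingleton] at h
  obtain ⟨p, q, hpq⟩ := hρ.toNontrivial
  apply hpq
  apply Subrepresentation.toSubmodule_injective
  exact Subsingleton.elim _ _

omit [Fintype V] [Fintype W] in
/-- the central character -/
theorem exists_char {E : Type} [AddCommGroup E] [Module ℂ E] [FiniteDimensional ℂ E]
    (ρ : Representation ℂ (HG β) E) (hρ : ρ.IsIrreducible) :
    ∃ ψ : AddChar W ℂ, ∀ u : W, ρ ⟨0, u⟩ = ψ u • LinearMap.id := by
  have hn := nontrivial_of_irreducible β ρ hρ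
  have h1 : ∀ u : W, ∃ a : ℂ, ρ ⟨0, u⟩ = a • LinearMap.id := by
    intro u
    obtain ⟨a, ha⟩ := (Representation.IsIrreducible.algebraMap_intertwiningMap_bijective_of_isAlgClosed
      (ρ := ρ) ).2 (Representation.IntertwiningMap.centralMul ρ _ (central β u))
    refine ⟨a, ?_⟩
    have h2 := congrArg (fun f : Representation.IntertwiningMap ρ ρ => f.toLinearMap) ha
    exact h2.symm
  choose a ha using h1
  obtain ⟨e, he⟩ := exists_ne (0 : E)
  have hinj : ∀ s t : ℂ, s • (LinearMap.id : E →ₗ[ℂ] E) = t • LinearMap.id → s = t := by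
    intro s t hst
    have := congrArg (fun f : E →ₗ[ℂ] E => f e) hst
    exact smul_left_injective ℂ he this
  refine ⟨⟨a, ?_, ?_⟩, ha⟩
  · apply hinj
    rw [← ha 0, one_smul]
    exact map_one ρ
  · intro u u'
    apply hinj
    rw [← ha (u + u')]
    have h3 : (⟨0, u + u'⟩ : HG β) = ⟨0, u⟩ * ⟨0, u'⟩ := by
      ext <;> simp
    rw [h3, map_mul, ha u, ha u']
    ext x
    simp [smul_smul, mul_comm]

theorem semiRational (hβ : ∀ v, β v v = 0) : SemiRational (HG β) := by
  intro r hr w E _ _ _ ρ hρ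
  obtain ⟨a, c, h⟩ := word_eval β w
  unfold coefficient
  rw [sum_word (HG β) w (fun g => ρ.character g⁻¹)]
  have hinv : Invertible (Nat.card (HG β) : ℂ) := by
    apply invertibleOfNonzero
    rw [Nat.cast_ne_zero]
    exact Nat.card_pos.ne'
  by_cases ha : ∃ k, a k ≠ 0
  · obtain ⟨k, hk⟩ := ha
    obtain ⟨N, hN⟩ := sum_uniform β w a c h k hk (fun g => ρ.character g⁻¹)
    rw [hN]
    have h1 : ∑ g : HG β, ρ.character g⁻¹ = ∑ g : HG β, ρ.character g :=
      Equiv.sum_comp (Equiv.inv (HG β)) (fun g => ρ.character g)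
    rw [h1, mul_left_comm, ρ.card_inv_mul_sum_char_eq_finrank]
    exact ⟨N * Module.finrank ℂ ρ.invariants, by push_cast; rfl⟩
  · push Not at ha
    obtain ⟨ψ, hψ⟩ := exists_char β ρ hρ
    have h1 : ∀ x : Fin r → HG β, ρ.character (FreeGroup.lift x w)⁻¹
        = (Module.finrank ℂ E : ℂ) * ψ⁻¹ (Q β c (fun i => (x i).v)) := by
      intro x
      have h2 : (FreeGroup.lift x w)⁻¹ = (⟨0, -Q β c (fun i => (x i).v)⟩ : HG β) := by
        ext
        · rw [inv_v, (h x).1]
          simp [ha]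
        · rw [inv_w, (h x).1, (h x).2]
          simp [ha]
      rw [h2, Representation.character, hψ, map_smul, LinearMap.trace_id, AddChar.inv_apply,
        smul_eq_mul, mul_comm]
    rw [Finset.sum_congr rfl fun x _ => h1 x, ← Finset.mul_sum]
    have h3 : ∑ x : Fin r → HG β, ψ⁻¹ (Q β c (fun i => (x i).v))
        = (Fintype.card W : ℂ) ^ r * ∑ v : Fin r → V, ψ⁻¹ (Q β c v) := by
      let e : (Fin r → HG β) ≃ (Fin r → V) × (Fin r → W) :=
        (Equiv.arrowCongr (Equiv.refl _) (equivProd β)).trans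
          (Equiv.arrowProdEquivProdArrow _ _ _)
      rw [← Equiv.sum_comp e.symm, Fintype.sum_prod_type, Finset.mul_sum]
      refine Finset.sum_congr rfl fun v _ => ?_
      have h4 : ∀ y : Fin r → W, ψ⁻¹ (Q β c fun i => (e.symm (v, y) i).v) = ψ⁻¹ (Q β c v) := by
        intro y
        rfl
      rw [Finset.sum_congr rfl fun y _ => h4 y]
      simp
    rw [h3]
    obtain ⟨N, hN, hN'⟩ := sum_Q β hβ ψ⁻¹ r c
    obtain ⟨N', hN''⟩ := hN' hr
    rw [hN, hN'', card_HG]
    refine ⟨Module.finrank ℂ E * (Fintype.card W : ℤ) ^ (r - 1) * N', ?_⟩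
    obtain ⟨m, rfl⟩ : ∃ m, r = m + 1 := ⟨r - 1, by omega⟩
    have hV : (Fintype.card V : ℂ) ≠ 0 := by
      rw [Nat.cast_ne_zero]; exact Fintype.card_ne_zero
    have hW : (Fintype.card W : ℂ) ≠ 0 := by
      rw [Nat.cast_ne_zero]; exact Fintype.card_ne_zero
    push_cast
    rw [pow_succ]
    field_simp

end General

/-! ### The example -/

abbrev V0 := Fin 6 → ZMod 3
abbrev W0 := Fin 5 → ZMod 3

/-- the values of the commutator form -/
def b0 (v u : V0) : W0 :=
  ![v 0 * u 1 - v 1 * u 0 + v 3 * u 4 - v 4 * u 3,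
    v 1 * u 5 - v 5 * u 1 + v 2 * u 3 - v 3 * u 2,
    v 1 * u 3 - v 3 * u 1 - v 4 * u 5 + v 5 * u 4,
    v 0 * u 5 - v 5 * u 0,
    v 1 * u 4 - v 4 * u 1]

/-- the alternating bilinear map `β` of the example -/
def β0 : V0 →ₗ[ZMod 3] V0 →ₗ[ZMod 3] W0 :=
  LinearMap.mk₂ (ZMod 3) b0
    (by intro v v' u; ext i; fin_cases i <;> simp [b0] <;> ring)
    (by intro c v u; ext i; fin_cases i <;> simp [b0] <;> ring)
    (by intro v u u'; ext i; fin_cases i <;> simp [b0] <;> ring)
    (by intro c v u; ext i; fin_cases i <;> simp [b0] <;> ring)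

theorem β0_alt (v : V0) : β0 v v = 0 := by
  show b0 v v = 0
  ext i
  fin_cases i <;> simp [b0] <;> ring

theorem β0_c0 (v u : V0) : β0 v u 0 = v 0 * u 1 - v 1 * u 0 + v 3 * u 4 - v 4 * u 3 := rfl
theorem β0_c1 (v u : V0) : β0 v u 1 = v 1 * u 5 - v 5 * u 1 + v 2 * u 3 - v 3 * u 2 := rfl
theorem β0_c2 (v u : V0) : β0 v u 2 = v 1 * u 3 - v 3 * u 1 - v 4 * u 5 + v 5 * u 4 := rfl
theorem β0_c3 (v u : V0) : β0 v u 3 = v 0 * u 5 - v 5 * u 0 := rfl
theorem β0_c4 (v u : V0) : β0 v u 4 = v 1 * u 4 - v 4 * u 1 := rfl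

/-- basis vectors -/
def e (i : Fin 6) : V0 := Pi.single i 1
def f (i : Fin 5) : W0 := Pi.single i 1

theorem minor2 (b x y : W0) (s t : ZMod 3) (hx : x = s • b) (hy : y = t • b) (i j : Fin 5) :
    x i * y j = x j * y i := by
  rw [hx, hy]
  simp only [Pi.smul_apply, smul_eq_mul]
  ring

theorem minor3 (a d x y z : W0) (s t s' t' s'' t'' : ZMod 3) (hx : x = s • a + t • d)
    (hy : y = s' • a + t' • d) (hz : z = s'' • a + t'' • d) (i j k : Fin 5) :
    x i * (y j * z k - y k * z j) - x j * (y i * z k - y k * z i)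
      + x k * (y i * z j - y j * z i) = 0 := by
  rw [hx, hy, hz]
  simp only [Pi.smul_apply, Pi.add_apply, smul_eq_mul]
  ring

theorem sq_zero {x : ZMod 3} (h : x * x = 0) : x = 0 := by
  revert h; revert x; decide

theorem cube_zero {x : ZMod 3} (h : x * x * x = 0) : x = 0 := by
  revert h; revert x; decide

/-- a vector whose commutators are all multiples of one element is a multiple of `e 2` -/
theorem rank1 (v : V0) (b : W0) (h : ∀ y, ∃ s : ZMod 3, β0 v y = s • b) :
    v 0 = 0 ∧ v 1 = 0 ∧ v 3 = 0 ∧ v 4 = 0 ∧ v 5 = 0 := by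
  have key : ∀ (y z : V0) (i j : Fin 5), β0 v y i * β0 v z j = β0 v y j * β0 v z i := by
    intro y z i j
    obtain ⟨s, hs⟩ := h y
    obtain ⟨t, ht⟩ := h z
    exact minor2 b _ _ s t hs ht i j
  have h3 : v 3 = 0 := by
    have := key (e 2) (e 4) 1 0
    simp [β0_c0, β0_c1, e] at this
    exact this
  have h1 : v 1 = 0 := by
    have := key (e 3) (e 4) 2 4
    simp [β0_c2, β0_c4, e] at this
    exact this
  have h4 : v 4 = 0 := by
    have := key (e 3) (e 1) 0 4
    simp [β0_c0, β0_c4, e] at this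
    exact this
  have h5 : v 5 = 0 := by
    have := key (e 0) (e 4) 3 2
    simp [β0_c3, β0_c2, e] at this
    exact this
  have h0 : v 0 = 0 := by
    have := key (e 1) (e 5) 0 3
    simp [β0_c3, β0_c0, e] at this
    exact this
  exact ⟨h0, h1, h3, h4, h5⟩

/-- a vector whose commutators span at most a plane is a multiple of `e 0` or of `e 2` -/
theorem rank2 (v : V0) (a d : W0) (h : ∀ y, ∃ s t : ZMod 3, β0 v y = s • a + t • d) :
    v 1 = 0 ∧ v 3 = 0 ∧ v 4 = 0 ∧ v 5 = 0 ∧ (v 0 = 0 ∨ v 2 = 0) := by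
  have key : ∀ (y z u : V0) (i j k : Fin 5),
      β0 v y i * (β0 v z j * β0 v u k - β0 v z k * β0 v u j)
      - β0 v y j * (β0 v z i * β0 v u k - β0 v z k * β0 v u i)
      + β0 v y k * (β0 v z i * β0 v u j - β0 v z j * β0 v u i) = 0 := by
    intro y z u i j k
    obtain ⟨s, t, hs⟩ := h y
    obtain ⟨s', t', hs'⟩ := h z
    obtain ⟨s'', t'', hs''⟩ := h u
    exact minor3 a d _ _ _ s t s' t' s'' t'' hs hs' hs'' i j k
  have h1 : v 1 = 0 := by
    have := key (e 0) (e 3) (e 4) 0 2 4
    simp [β0_c0, β0_c2, β0_c4, e] at this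
    exact this
  have h4 : v 4 = 0 := by
    have := key (e 1) (e 3) (e 5) 4 0 2
    simp [β0_c0, β0_c2, β0_c4, e, h1] at this
    exact this
  have h5 : v 5 = 0 := by
    have := key (e 0) (e 1) (e 4) 3 1 2
    simp [β0_c3, β0_c1, β0_c2, e, h1, h4] at this
    exact this
  have h3 : v 3 = 0 := by
    have := key (e 1) (e 2) (e 4) 2 1 0
    simp [β0_c0, β0_c1, β0_c2, e, h1, h4, h5] at this
    exact this
  have h02 : v 0 = 0 ∨ v 2 = 0 := by
    have := key (e 1) (e 3) (e 5) 0 1 3
    simp [β0_c0, β0_c1, β0_c3, e, h1, h4, h5, h3] at this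
    tauto
  exact ⟨h1, h3, h4, h5, h02⟩

/-- the form on basis vectors -/
theorem β0_e01 : β0 (e 0) (e 1) = f 0 := by decide +kernel
theorem β0_e34 : β0 (e 3) (e 4) = f 0 := by decide +kernel
theorem β0_e15 : β0 (e 1) (e 5) = f 1 := by decide +kernel
theorem β0_e23 : β0 (e 2) (e 3) = f 1 := by decide +kernel
theorem β0_e13 : β0 (e 1) (e 3) = f 2 := by decide +kernel
theorem β0_e45 : β0 (e 4) (e 5) = - f 2 := by decide +kernel
theorem β0_e05 : β0 (e 0) (e 5) = f 3 := by decide +kernel
theorem β0_e03 : β0 (e 0) (e 3) = 0 := by decide +kernel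
theorem β0_e04 : β0 (e 0) (e 4) = 0 := by decide +kernel
theorem β0_e21 : β0 (e 2) (e 1) = 0 := by decide +kernel
theorem β0_e24 : β0 (e 2) (e 4) = 0 := by decide +kernel
theorem β0_e25 : β0 (e 2) (e 5) = 0 := by decide +kernel
theorem β0_e35 : β0 (e 3) (e 5) = 0 := by decide +kernel

theorem β0_e2 (y : V0) : β0 (e 2) y = y 3 • f 1 := by
  show b0 (e 2) y = y 3 • f 1
  ext i
  fin_cases i <;> simp [b0, e, f]

theorem β0_e0 (y : V0) : β0 (e 0) y = y 1 • f 0 + y 5 • f 3 := by
  show b0 (e 0) y = y 1 • f 0 + y 5 • f 3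
  ext i
  fin_cases i <;> simp [b0, e, f]

/-- Every automorphism of the commutator form fixes `f 3 = [e 0, e 5]`. -/
theorem rigid_core (g : V0 →+ V0) (h : W0 →+ W0) (hg : Function.Surjective g)
    (hh : Function.Injective h) (H : ∀ x y, β0 (g x) (g y) = h (β0 x y)) : h (f 3) = f 3 := by
  -- the image of `e 2`
  obtain ⟨p0, p1, p3, p4, p5⟩ := rank1 (g (e 2)) (h (f 1)) (by
    intro y
    obtain ⟨y, rfl⟩ := hg y
    refine ⟨y 3, ?_⟩
    rw [H, β0_e2, ZMod.map_smul])
  set p := g (e 2) with hp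
  -- the image of `e 0`
  obtain ⟨q1, q3, q4, q5, q02⟩ := rank2 (g (e 0)) (h (f 0)) (h (f 3)) (by
    intro y
    obtain ⟨y, rfl⟩ := hg y
    refine ⟨y 1, y 5, ?_⟩
    rw [H, β0_e0, map_add, ZMod.map_smul, ZMod.map_smul])
  set q := g (e 0) with hq
  have hf : ∀ i : Fin 5, h (f i) ≠ 0 := by
    intro i hi
    have h1 : f i = 0 := hh (by rw [hi, map_zero])
    have h2 := congrFun h1 i
    simp [f] at h2
  -- the images of the other basis vectors
  set a := g (e 3) with ha
  set b := g (e 5) with hb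
  set c := g (e 4) with hc
  set d := g (e 1) with hd
  have E03 : β0 q a = 0 := by rw [hq, ha, H, β0_e03, map_zero]
  have E04 : β0 q c = 0 := by rw [hq, hc, H, β0_e04, map_zero]
  have E21 : β0 p d = 0 := by rw [hp, hd, H, β0_e21, map_zero]
  have E24 : β0 p c = 0 := by rw [hp, hc, H, β0_e24, map_zero]
  have E25 : β0 p b = 0 := by rw [hp, hb, H, β0_e25, map_zero]
  have E35 : β0 a b = 0 := by rw [ha, hb, H, β0_e35, map_zero]
  have E23 : β0 p a = h (f 1) := by rw [hp, ha, H, β0_e23]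
  have E01 : β0 q d = h (f 0) := by rw [hq, hd, H, β0_e01]
  have E34 : β0 a c = h (f 0) := by rw [ha, hc, H, β0_e34]
  have E13 : β0 d a = h (f 2) := by rw [hd, ha, H, β0_e13]
  have E45 : β0 c b = - h (f 2) := by rw [hc, hb, H, β0_e45, map_neg]
  have E05 : β0 q b = h (f 3) := by rw [hq, hb, H, β0_e05]
  -- `p 2 ≠ 0` and `a 3 ≠ 0`
  have hpa : ∀ x : V0, ∀ i, β0 p x i = if i = 1 then p 2 * x 3 else 0 := by
    intro x i
    fin_cases i
    · simp [β0_c0, p0, p1, p3, p4]
    · simp [β0_c1, p1, p5, p3]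
    · simp [β0_c2, p1, p3, p4, p5]
    · simp [β0_c3, p0, p5]
    · simp [β0_c4, p1, p4]
  have hp2 : p 2 ≠ 0 := by
    intro h0
    apply hf 1
    rw [← E23]
    ext i
    rw [hpa, h0, zero_mul, ite_self]
    rfl
  have ha3 : a 3 ≠ 0 := by
    intro h0
    apply hf 1
    rw [← E23]
    ext i
    rw [hpa, h0, mul_zero, ite_self]
    rfl
  have hcomp : ∀ {x : V0}, β0 p x = 0 → x 3 = 0 := by
    intro x hx
    have h1 := congrFun hx 1
    rw [hpa, if_pos rfl] at h1
    exact (mul_eq_zero.1 h1).resolve_left hp2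
  have c3 := hcomp E24
  have b3 := hcomp E25
  have d3 := hcomp E21
  -- `q 0 ≠ 0`
  have q0 : q 0 ≠ 0 := by
    intro h0
    apply hf 0
    rw [← E01]
    ext i
    fin_cases i
    · simp [β0_c0, h0, q1, q3, q4]
    · simp [β0_c1, q1, q5, q3, d3]
    · simp [β0_c2, q1, q3, q4, q5]
    · simp [β0_c3, h0, q5]
    · simp [β0_c4, q1, q4]
  have q2 : q 2 = 0 := q02.resolve_left q0
  have hqa : ∀ x : V0, β0 q x = (q 0 * x 1) • f 0 + (q 0 * x 5) • f 3 := by
    intro x
    ext i
    fin_cases i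
    · simp [β0_c0, q1, q3, q4, f]
    · simp [β0_c1, q1, q5, q3, q2, f]
    · simp [β0_c2, q1, q3, q4, q5, f]
    · simp [β0_c3, q5, f]
    · simp [β0_c4, q1, q4, f]
  have hcomp0 : ∀ {x : V0}, β0 q x = 0 → x 1 = 0 ∧ x 5 = 0 := by
    intro x hx
    rw [hqa] at hx
    have h1 := congrFun hx 0
    have h2 := congrFun hx 3
    simp [f, q0] at h1 h2
    exact ⟨h1, h2⟩
  obtain ⟨a1, a5⟩ := hcomp0 E03
  obtain ⟨c1, c5⟩ := hcomp0 E04
  -- `[e 3, e 5] = 0`
  have F0 := congrFun E35 0
  have F1 := congrFun E35 1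
  have F2 := congrFun E35 2
  have F3 := congrFun E35 3
  have F4 := congrFun E35 4
  rw [β0_c0] at F0
  rw [β0_c1] at F1
  rw [β0_c2] at F2
  rw [β0_c3] at F3
  rw [β0_c4] at F4
  simp only [a1, a5, b3, Pi.zero_apply, zero_mul, mul_zero, sub_zero, zero_sub,
    add_zero] at F0 F1 F2 F3 F4
  have b1 : b 1 = 0 := by
    have h1 : a 3 * (b 1 * b 1) = 0 := by
      linear_combination (-(b 1)) * F2 + (b 5) * F4
    exact sq_zero ((mul_eq_zero.1 h1).resolve_left ha3)
  have b5 : b 5 ≠ 0 := by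
    intro h0
    apply hf 3
    rw [← E05, hqa, b1, h0]
    simp
  have a4 : a 4 = 0 := by
    have h1 : a 4 * b 5 = 0 := by
      linear_combination (-1 : ZMod 3) * F2 - (a 3) * b1
    exact (mul_eq_zero.1 h1).resolve_right b5
  -- the equations for `h (f 3)`, `h (f 0)` and `h (f 2)`
  have G0 := congrFun (E01.trans E34.symm) 0
  have G3 := congrFun (E01.trans E34.symm) 3
  have G2 : β0 d a 2 = - β0 c b 2 := by
    rw [E13, E45, Pi.neg_apply, neg_neg]
  rw [hqa] at G0 G3
  rw [β0_c0] at G0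
  rw [β0_c3] at G3
  rw [β0_c2, β0_c2] at G2
  simp [f, a1, a5, a4, c1, c5, c3, b3, d3, b1, q0] at G0 G3 G2
  have d1 : d 1 ≠ 0 := by
    intro h0
    apply hf 0
    rw [← E01, hqa, h0, G3]
    simp
  have hfin : q 0 * b 5 = 1 := by
    have h2 : a 3 * a 3 = 1 := by
      revert ha3; generalize a 3 = t; revert t; decide
    have h1 : d 1 * (q 0 * b 5 - 1) = 0 := by
      linear_combination (b 5) * G0 - (a 3) * G2 + (d 1) * h2
    exact sub_eq_zero.1 ((mul_eq_zero.1 h1).resolve_left d1)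
  rw [← E05, hqa, b1, hfin]
  simp

/-- the example: a group of order `3 ^ 11` -/
abbrev G0 := HG β0

/-- central elements of `G0` -/
theorem v_eq_zero_of_central (x : G0) (hx : ∀ y : G0, x * y = y * x) : x.v = 0 := by
  have h : ∀ u : V0, β0 x.v u = 0 := by
    intro u
    have h1 := congrArg HG.w (hx ⟨u, 0⟩)
    rw [mul_w, mul_w, beta_swap β0 β0_alt u x.v, add_comm (0 : W0) x.w] at h1
    have h2 : β0 x.v u = - β0 x.v u := add_left_cancel h1
    have h3 : (2 : ZMod 3) • β0 x.v u = 0 := by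
      rw [two_smul]
      nth_rewrite 1 [h2]
      exact neg_add_cancel _
    exact (smul_eq_zero.1 h3).resolve_left (by decide)
  have h0 := h (e 0)
  have h2 := h (e 2)
  have h3 := h (e 3)
  have h5 := h (e 5)
  have k0 := congrFun h0 0
  have k1 := congrFun h0 3
  have k2 := congrFun h2 1
  have k3 := congrFun h3 0
  have k4 := congrFun h3 1
  have k5 := congrFun h5 3
  rw [β0_c0] at k0 k3
  rw [β0_c3] at k1 k5
  rw [β0_c1] at k2 k4
  simp [e] at k0 k1 k2 k3 k4 k5
  ext i
  fin_cases i <;> simp [*]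

/-- Every automorphism of `G0` fixes the element `(0, f 3)`. -/
theorem fixed (α : G0 ≃* G0) : α ⟨0, f 3⟩ = ⟨0, f 3⟩ := by
  -- images of elements of the center
  have hcen : ∀ u : W0, (α ⟨0, u⟩).v = 0 := by
    intro u
    apply v_eq_zero_of_central
    intro y
    obtain ⟨y, rfl⟩ := α.surjective y
    rw [← map_mul, ← map_mul]
    congr 1
    ext
    · simp
    · simp [add_comm]
  have hdec : ∀ x : G0, x = ⟨x.v, 0⟩ * ⟨0, x.w⟩ := by
    intro x
    ext <;> simp
  have hv : ∀ x : G0, (α x).v = (α ⟨x.v, 0⟩).v := by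
    intro x
    conv_lhs => rw [hdec x]
    rw [map_mul, mul_v, hcen, add_zero]
  let g : V0 →+ V0 :=
    { toFun := fun v => (α ⟨v, 0⟩).v
      map_zero' := hcen 0
      map_add' := by
        intro v v'
        have h1 := hv (⟨v, 0⟩ * ⟨v', 0⟩)
        rw [map_mul, mul_v, mul_v] at h1
        exact h1.symm }
  let h : W0 →+ W0 :=
    { toFun := fun u => (α ⟨0, u⟩).w
      map_zero' := by
        have h1 : (⟨0, 0⟩ : G0) = 1 := rfl
        rw [h1, map_one]
        rfl
      map_add' := by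
        intro u u'
        have h1 : (⟨0, u + u'⟩ : G0) = ⟨0, u⟩ * ⟨0, u'⟩ := by ext <;> simp
        rw [h1, map_mul, mul_w, hcen, map_zero, LinearMap.zero_apply, add_zero] }
  have hg : Function.Surjective g := by
    intro y
    obtain ⟨x, hx⟩ := α.surjective ⟨y, 0⟩
    refine ⟨x.v, ?_⟩
    show (α ⟨x.v, 0⟩).v = y
    rw [← hv, hx]
  have hh : Function.Injective h := by
    intro u u' huu
    have h1 : α ⟨0, u⟩ = α ⟨0, u'⟩ := HG.ext (by rw [hcen, hcen]) huu
    exact congrArg HG.w (α.injective h1)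
  have H : ∀ x y, β0 (g x) (g y) = h (β0 x y) := by
    intro x y
    have h1 : (⟨x, 0⟩ * ⟨y, 0⟩ : G0) = ⟨y, 0⟩ * ⟨x, 0⟩ * ⟨0, - β0 x y⟩ := by
      ext i
      · simp [add_comm]
      · have h2 : β0 x y i = - β0 x y i + - β0 x y i := by
          generalize β0 x y i = t
          revert t; decide
        simp only [mul_w, mul_v, add_zero, zero_add, map_zero, Pi.add_apply, Pi.neg_apply]
        rw [beta_swap β0 β0_alt y x]
        simpa using h2
    have h2 := congrArg (fun z => (α z).w) h1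
    simp only [map_mul, mul_w, mul_v, hcen, map_zero, add_zero] at h2
    rw [beta_swap β0 β0_alt (α ⟨y, 0⟩).v (α ⟨x, 0⟩).v] at h2
    have h3 : (α ⟨0, -β0 x y⟩).w = - (α ⟨0, β0 x y⟩).w := map_neg h (β0 x y)
    rw [h3] at h2
    show β0 (α ⟨x, 0⟩).v (α ⟨y, 0⟩).v = (α ⟨0, β0 x y⟩).w
    ext i
    have h4 := congrFun h2 i
    simp only [Pi.add_apply, Pi.neg_apply] at h4
    generalize β0 (α ⟨x, 0⟩).v (α ⟨y, 0⟩).v i = s at h4 ⊢
    generalize (α ⟨0, β0 x y⟩).w i = t at h4 ⊢
    have h5 : s = -s + -t := by linear_combination h4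
    revert h5
    clear h4 h3 h2 h1
    revert s t
    decide
  ext : 1
  · exact hcen _
  · exact rigid_core g h hg hh H

theorem triple_zero : ∀ t : ZMod 3, t + t + t = 0 := by decide

theorem order_f3 : orderOf (⟨0, f 3⟩ : G0) = 3 := by
  have hp : Fact (Nat.Prime 3) := ⟨by norm_num⟩
  apply orderOf_eq_prime
  · ext i
    · simp [pow_succ]
    · simpa [pow_succ] using triple_zero (f 3 i)
  · intro h
    have h1 := congrFun (congrArg HG.w h) 3
    simp [f] at h1

/-- **Answer to Q1 (negative).** There is a finite semi-rational group `G` (of order `3 ^ 11`,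
nilpotent of class `2` and exponent `3`) whose absolute center contains an element of order `3`,
i.e. an element of order `3` that is fixed by every automorphism of `G`. -/
theorem result :
    ∃ (G : Type) (_ : Group G) (_ : Fintype G), SemiRational G ∧
      ∃ z : G, orderOf z = 3 ∧ ∀ α : G ≃* G, α z = z :=
  ⟨G0, inferInstance, inferInstance, semiRational β0 β0_alt, ⟨0, f 3⟩, order_f3, fixed⟩

end Pool.Agent.Results.MP_82b5c7_al.AbsoluteCenter
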